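import Mathlib

/-!
# A determinant inequality

For positive semidefinite `M, N` and `a, b ≥ 0`:
`2 (sqrt (a b))^n det (M + N) ≤ det (a M + b N) + det (b M + a N)`.
-/

set_option autoImplicit false

open scoped Matrix MatrixOrder ComplexOrder

namespace Pool.Agent.Helper78.NM

variable {n : ℕ}

lemma det_shift {C : Matrix (Fin n) (Fin n) ℝ} (hC : C.IsHermitian) (a b : ℝ) :
    (a • (1 : Matrix (Fin n) (Fin n) ℝ) + b • C).det = ∏ i, (a + b * hC.eigenvalues i) := by
  set U := (hC.eigenvectorUnitary : Matrix (Fin n) (Fin n) ℝ) with hU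
  have hUU : U * star U = 1 := by
    rw [hU]; exact Matrix.mem_unitaryGroup_iff.1 (hC.eigenvectorUnitary).2
  have hsp : C = U * Matrix.diagonal hC.eigenvalues * star U := by
    have := hC.spectral_theorem
    rw [Unitary.conjStarAlgAut_apply] at this
    simpa using this
  have e1 : a • (1 : Matrix (Fin n) (Fin n) ℝ) + b • C =
      U * Matrix.diagonal (fun i => a + b * hC.eigenvalues i) * star U := by
    have e2 : Matrix.diagonal (fun i => a + b * hC.eigenvalues i) =
        a • (1 : Matrix (Fin n) (Fin n) ℝ) + b • Matrix.diagonal hC.eigenvalues := by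
      ext i j
      by_cases hij : i = j
      · subst hij; simp
      · simp [hij]
    rw [e2, Matrix.mul_add, Matrix.add_mul, Matrix.mul_smul, Matrix.mul_smul, Matrix.smul_mul,
      Matrix.smul_mul, Matrix.mul_one, hUU, ← hsp]
  rw [e1, Matrix.det_mul_right_comm, hUU, Matrix.one_mul, Matrix.det_diagonal]

theorem det_pair {M N : Matrix (Fin n) (Fin n) ℝ} (hM : M.PosSemidef) (hN : N.PosSemidef)
    {a b : ℝ} (ha : 0 ≤ a) (hb : 0 ≤ b) :
    2 * Real.sqrt (a * b) ^ n * (M + N).det ≤ (a • M + b • N).det + (b • M + a • N).det := by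
  have hS : (M + N).PosSemidef := hM.add hN
  have h1 : 0 ≤ (a • M + b • N).det := ((hM.smul ha).add (hN.smul hb)).det_nonneg
  have h2 : 0 ≤ (b • M + a • N).det := ((hM.smul hb).add (hN.smul ha)).det_nonneg
  by_cases h0 : (M + N).det = 0
  · rw [h0]; simpa using add_nonneg h1 h2
  have hSd : (M + N).PosDef := hS.posDef_iff_det_ne_zero.2 h0
  set R := CFC.sqrt (M + N) with hR
  have hRR : R * R = M + N := CFC.sqrt_mul_sqrt_self _ hS.nonneg
  have hRp : R.PosSemidef := (Matrix.nonneg_iff_posSemidef).1 (CFC.sqrt_nonneg _)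
  have hRdet : R.det ≠ 0 := by
    intro h; apply h0; rw [← hRR, Matrix.det_mul, h, zero_mul]
  have hRu : IsUnit R.det := isUnit_iff_ne_zero.2 hRdet
  set T := R⁻¹ with hT
  have hTR : T * R = 1 := Matrix.nonsing_inv_mul R hRu
  have hRT : R * T = 1 := Matrix.mul_nonsing_inv R hRu
  have hTh : Tᴴ = T := by
    rw [hT, Matrix.conjTranspose_nonsing_inv, hRp.isHermitian.eq]
  have hCp : (T * M * T).PosSemidef := by
    have := hM.conjTranspose_mul_mul_same T
    rwa [hTh] at this
  have hDp : (T * N * T).PosSemidef := by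
    have := hN.conjTranspose_mul_mul_same T
    rwa [hTh] at this
  set C := T * M * T with hC
  have hsum : C + T * N * T = 1 := by
    rw [hC, ← Matrix.add_mul, ← Matrix.mul_add, ← hRR, ← Matrix.mul_assoc, hTR, Matrix.one_mul, hRT]
  have hND : T * N * T = 1 - C := by rw [← hsum]; abel
  have hCh := hCp.isHermitian
  set c := hCh.eigenvalues with hc
  have hc0 : ∀ i, 0 ≤ c i := fun i => hCp.eigenvalues_nonneg i
  have hc1 : ∀ i, c i ≤ 1 := by
    intro i
    -- `1 - C` is positive semidefinite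
    rw [hND] at hDp
    have h3 := hDp.re_dotProduct_nonneg (⇑(hCh.eigenvectorBasis i))
    have h4 : (1 - C) *ᵥ ⇑(hCh.eigenvectorBasis i) = (1 - c i) • ⇑(hCh.eigenvectorBasis i) := by
      rw [Matrix.sub_mulVec, Matrix.one_mulVec, hCh.mulVec_eigenvectorBasis, sub_smul, one_smul]
    rw [h4, dotProduct_smul] at h3
    have h5 : (star (⇑(hCh.eigenvectorBasis i)) ⬝ᵥ ⇑(hCh.eigenvectorBasis i) : ℝ) = 1 := by
      have := hCh.eigenvectorBasis.orthonormal.1 i
      have h6 : inner ℝ (hCh.eigenvectorBasis i) (hCh.eigenvectorBasis i) = 1 := by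
        rw [real_inner_self_eq_norm_sq, this]; norm_num
      rw [EuclideanSpace.inner_eq_star_dotProduct] at h6
      rw [dotProduct_comm]; exact h6
    rw [h5] at h3
    simpa using h3
  -- determinants
  have key : ∀ x y : ℝ, (x • M + y • N).det = (M + N).det * ∏ i, (y + (x - y) * c i) := by
    intro x y
    have e1 : x • M + y • N = R * (y • (1 : Matrix (Fin n) (Fin n) ℝ) + (x - y) • C) * R := by
      have e2 : R * C * R = M := by
        rw [hC]
        calc R * (T * M * T) * R = (R * T) * M * (T * R) := by simp only [Matrix.mul_assoc]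
          _ = M := by rw [hRT, hTR, Matrix.one_mul, Matrix.mul_one]
      rw [Matrix.mul_add, Matrix.add_mul, Matrix.mul_smul, Matrix.mul_smul, Matrix.smul_mul,
        Matrix.smul_mul, Matrix.mul_one, e2, hRR, sub_smul, smul_add]
      abel
    rw [e1, Matrix.det_mul, Matrix.det_mul, det_shift hCh, ← hRR, Matrix.det_mul]
    ring
  rw [key a b, key b a, ← mul_add, mul_comm (2 * _) _]
  refine mul_le_mul_of_nonneg_left ?_ hS.det_nonneg
  -- AM-GM
  set X := ∏ i, (b + (a - b) * c i) with hX
  set Y := ∏ i, (a + (b - a) * c i) with hY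
  have hX0 : 0 ≤ X := Finset.prod_nonneg fun i _ => by
    have := hc0 i; have := hc1 i; nlinarith
  have hY0 : 0 ≤ Y := Finset.prod_nonneg fun i _ => by
    have := hc0 i; have := hc1 i; nlinarith
  have hXY : (a * b) ^ n ≤ X * Y := by
    rw [hX, hY, ← Finset.prod_mul_distrib]
    have : (a * b) ^ n = ∏ _i : Fin n, a * b := by simp
    rw [this]
    refine Finset.prod_le_prod (fun i _ => mul_nonneg ha hb) fun i _ => ?_
    have h3 := hc0 i
    have h4 := hc1 i
    nlinarith [mul_nonneg (mul_nonneg h3 (sub_nonneg.2 h4)) (sq_nonneg (a - b))]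
  have h5 : Real.sqrt (a * b) ^ n ≤ Real.sqrt (X * Y) := by
    refine Real.le_sqrt_of_sq_le ?_
    rw [← pow_mul, mul_comm n 2, pow_mul, Real.sq_sqrt (mul_nonneg ha hb)]
    exact hXY
  have h6 : 2 * Real.sqrt (X * Y) ≤ X + Y := by
    rw [Real.sqrt_mul hX0]
    nlinarith [sq_nonneg (Real.sqrt X - Real.sqrt Y), Real.sq_sqrt hX0, Real.sq_sqrt hY0]
  linarith

end Pool.Agent.Helper78.NM
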