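import Pool.Agent.Helper78.NM.Proj
import Pool.Agent.Helper78.NM.Mat

/-!
# The volume inequality

If `L = -L` is measurable, `L ⊆ K` and `4 L ⊆ K - K`, then `(4/3)^(n/2) vol L ≤ vol K`.
-/

set_option autoImplicit false

open MeasureTheory Filter Topology Set
open scoped RealInnerProductSpace Pointwise ENNReal

namespace Pool.Agent.Helper78.NM

section lin

variable {E : Type*} [NormedAddCommGroup E] [InnerProductSpace ℝ E]
variable {K : Set E} {P : E → E}

/-- the inner product as a real bilinear map -/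
noncomputable def ip [FiniteDimensional ℝ E] : E →L[ℝ] (E →L[ℝ] ℝ) :=
  LinearMap.toContinuousLinearMap
    { toFun := fun x => innerSL ℝ x
      map_add' := fun x y => by ext z; simp
      map_smul' := fun c x => by ext z; simp }

lemma ip_apply [FiniteDimensional ℝ E] (x : E) : ip x = innerSL ℝ x := rfl

theorem fderiv_isPositive [FiniteDimensional ℝ E] (h : IsProj K P) {u : E}
    (hu : DifferentiableAt ℝ P u) : (fderiv ℝ P u : E →ₗ[ℝ] E).IsPositive := by
  have hd := hu.hasFDerivAt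
  constructor
  · intro v w
    have h1 : ∀ᶠ y in 𝓝 u, HasFDerivAt (psi P) (ip (P y)) y :=
      Eventually.of_forall fun y => psi_hasFDerivAt h y
    have h2 : HasFDerivAt (fun y => ip (P y)) ((ip : E →L[ℝ] _).comp (fderiv ℝ P u)) u :=
      (ip : E →L[ℝ] _).hasFDerivAt.comp u hd
    have h3 := second_derivative_symmetric_of_eventually h1 h2 v w
    have h4 : ⟪fderiv ℝ P u v, w⟫ = ⟪fderiv ℝ P u w, v⟫ := h3
    show ⟪fderiv ℝ P u v, w⟫ = ⟪v, fderiv ℝ P u w⟫
    rw [h4, real_inner_comm]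
  · intro v
    show 0 ≤ ⟪fderiv ℝ P u v, v⟫
    -- directional derivative
    have h1 : HasDerivAt (fun t : ℝ => P (u + t • v)) (fderiv ℝ P u v) 0 := by
      have h2 : HasDerivAt (fun t : ℝ => u + t • v) v 0 := by
        simpa using ((hasDerivAt_id (0:ℝ)).smul_const v).const_add u
      have h3 : HasFDerivAt P (fderiv ℝ P u) (u + (0:ℝ) • v) := by simpa using hd
      exact h3.comp_hasDerivAt 0 h2
    have h4 : Tendsto (fun t : ℝ => t⁻¹ • (P (u + t • v) - P u)) (𝓝[≠] 0) (𝓝 (fderiv ℝ P u v)) := by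
      have := h1.tendsto_slope_zero
      simpa using this
    have h5 : Tendsto (fun t : ℝ => ⟪t⁻¹ • (P (u + t • v) - P u), v⟫) (𝓝[≠] 0)
        (𝓝 ⟪fderiv ℝ P u v, v⟫) := h4.inner tendsto_const_nhds
    refine ge_of_tendsto' h5 fun t => ?_
    have h6 := h.firm (u + t • v) u
    rw [add_sub_cancel_left, inner_smul_right] at h6
    rw [inner_smul_left]
    simp only [conj_trivial]
    have h7 : 0 ≤ t * ⟪P (u + t • v) - P u, v⟫ := (sq_nonneg _).trans h6
    rcases eq_or_ne t 0 with h0 | h0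
    · rw [h0]; simp
    · have : t⁻¹ * ⟪P (u + t • v) - P u, v⟫ = (t⁻¹) ^ 2 * (t * ⟪P (u + t • v) - P u, v⟫) := by
        field_simp
      rw [this]
      positivity

end lin

variable {n : ℕ}


/-- determinant inequality for positive operators -/
theorem det_pair_op {A B : EuclideanSpace ℝ (Fin n) →L[ℝ] EuclideanSpace ℝ (Fin n)} (hA : (A : EuclideanSpace ℝ (Fin n) →ₗ[ℝ] EuclideanSpace ℝ (Fin n)).IsPositive)
    (hB : (B : EuclideanSpace ℝ (Fin n) →ₗ[ℝ] EuclideanSpace ℝ (Fin n)).IsPositive) {a b : ℝ} (ha : 0 ≤ a) (hb : 0 ≤ b) :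
    2 * Real.sqrt (a * b) ^ n * (A + B).det ≤ (a • A + b • B).det + (b • A + a • B).det := by
  set v := EuclideanSpace.basisFun (Fin n) ℝ with hv
  have e : ∀ C : EuclideanSpace ℝ (Fin n) →L[ℝ] EuclideanSpace ℝ (Fin n), C.det = (LinearMap.toMatrix v.toBasis v.toBasis (C : EuclideanSpace ℝ (Fin n) →ₗ[ℝ] EuclideanSpace ℝ (Fin n))).det := by
    intro C
    rw [LinearMap.det_toMatrix]
  have hA' := (LinearMap.posSemidef_toMatrix_iff v).2 hA
  have hB' := (LinearMap.posSemidef_toMatrix_iff v).2 hB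
  have := det_pair hA' hB' ha hb
  rw [e, e, e]
  simpa using this

lemma det_nonneg_op {A : EuclideanSpace ℝ (Fin n) →L[ℝ] EuclideanSpace ℝ (Fin n)} (hA : (A : EuclideanSpace ℝ (Fin n) →ₗ[ℝ] EuclideanSpace ℝ (Fin n)).IsPositive) : 0 ≤ A.det := by
  set v := EuclideanSpace.basisFun (Fin n) ℝ with hv
  have hA' := (LinearMap.posSemidef_toMatrix_iff v).2 hA
  have e : A.det = (LinearMap.toMatrix v.toBasis v.toBasis (A : EuclideanSpace ℝ (Fin n) →ₗ[ℝ] EuclideanSpace ℝ (Fin n))).det := by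
    rw [LinearMap.det_toMatrix]
  rw [e]
  exact hA'.det_nonneg

/-- Lipschitz images of null sets are null -/
lemma null_image {f : EuclideanSpace ℝ (Fin n) → EuclideanSpace ℝ (Fin n)} {C : NNReal} (hf : LipschitzWith C f) {s : Set (EuclideanSpace ℝ (Fin n))}
    (hs : volume s = 0) : volume (f '' s) = 0 := by
  set μ : Measure (EuclideanSpace ℝ (Fin n)) := Measure.hausdorffMeasure (Module.finrank ℝ (EuclideanSpace ℝ (Fin n)) : ℝ) with hμ
  have h1 : μ s = 0 := by
    have : μ = Measure.addHaarScalarFactor μ volume • (volume : Measure (EuclideanSpace ℝ (Fin n))) :=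
      Measure.isAddLeftInvariant_eq_smul _ _
    rw [this, Measure.smul_apply, hs, smul_zero]
  have h2 : μ (f '' s) = 0 := by
    have := hf.hausdorffMeasure_image_le (d := (Module.finrank ℝ (EuclideanSpace ℝ (Fin n)) : ℝ)) (by positivity) s
    rw [← hμ] at this
    rw [h1, mul_zero] at this
    exact le_antisymm this bot_le
  have : (volume : Measure (EuclideanSpace ℝ (Fin n))) = Measure.addHaarScalarFactor volume μ • μ :=
    Measure.isAddLeftInvariant_eq_smul _ _
  rw [this, Measure.smul_apply, h2, smul_zero]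

section main

variable {K : Set (EuclideanSpace ℝ (Fin n))} {P : EuclideanSpace ℝ (Fin n) → EuclideanSpace ℝ (Fin n)}

/-- half of the difference of opposite nearest points -/
noncomputable def X (P : EuclideanSpace ℝ (Fin n) → EuclideanSpace ℝ (Fin n)) (u : EuclideanSpace ℝ (Fin n)) : EuclideanSpace ℝ (Fin n) := (1 / 4 : ℝ) • (P u - P (-u))

/-- the second map -/
noncomputable def Y (P : EuclideanSpace ℝ (Fin n) → EuclideanSpace ℝ (Fin n)) (u : EuclideanSpace ℝ (Fin n)) : EuclideanSpace ℝ (Fin n) := (1 / 2 : ℝ) • P u - (1 / 6 : ℝ) • P (-u)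

lemma X_neg (u : EuclideanSpace ℝ (Fin n)) : X P (-u) = -X P u := by
  unfold X; rw [neg_neg, ← smul_neg, neg_sub]

lemma Y_eq (u : EuclideanSpace ℝ (Fin n)) : Y P u = (2 / 3 : ℝ) • X P u + (1 / 3 : ℝ) • P u := by
  unfold X Y; module

lemma X_lipschitz (h : IsProj K P) : LipschitzWith 1 (X P) :=
  LipschitzWith.of_dist_le_mul fun u v => by
    rw [dist_eq_norm, dist_eq_norm, NNReal.coe_one, one_mul]
    have h1 := h.lip u v
    have h2 := h.lip (-u) (-v)
    have e1 : ‖-u - -v‖ = ‖u - v‖ := by rw [← norm_neg]; congr 1; abel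
    rw [e1] at h2
    have e2 : X P u - X P v = (1 / 4 : ℝ) • ((P u - P v) - (P (-u) - P (-v))) := by
      unfold X; module
    rw [e2, norm_smul]
    have h3 := norm_sub_le (P u - P v) (P (-u) - P (-v))
    rw [Real.norm_eq_abs, abs_of_pos (by norm_num : (0:ℝ) < 1/4)]
    have := norm_nonneg (u - v)
    linarith

/-- derivative of `u ↦ P (-u)` -/
lemma hasFDerivAt_neg' {u : EuclideanSpace ℝ (Fin n)} (hu : DifferentiableAt ℝ P (-u)) :
    HasFDerivAt (fun v => P (-v)) (-(fderiv ℝ P (-u))) u := by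
  have h3 := hu.hasFDerivAt.comp u (hasFDerivAt_id u).neg
  refine h3.congr_fderiv ?_
  ext y; simp

/-- the linear combinations of the two derivatives -/
noncomputable def Dm (P : EuclideanSpace ℝ (Fin n) → EuclideanSpace ℝ (Fin n)) (a b : ℝ) (u : EuclideanSpace ℝ (Fin n)) : EuclideanSpace ℝ (Fin n) →L[ℝ] EuclideanSpace ℝ (Fin n) :=
  a • fderiv ℝ P u + b • fderiv ℝ P (-u)

lemma measurable_Dm (a b : ℝ) : Measurable fun u => (Dm P a b u).det := by
  have h1 : Measurable (fderiv ℝ P) := measurable_fderiv ℝ P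
  have h2 : Measurable fun u => fderiv ℝ P (-u) := h1.comp measurable_neg
  exact ContinuousLinearMap.continuous_det.measurable.comp ((h1.const_smul a).add (h2.const_smul b))

lemma X_deriv {u : EuclideanSpace ℝ (Fin n)} (h1 : DifferentiableAt ℝ P u) (h2 : DifferentiableAt ℝ P (-u)) :
    HasFDerivAt (X P) (Dm P (1/4) (1/4) u) u := by
  have h3 := (h1.hasFDerivAt.sub (hasFDerivAt_neg' h2)).const_smul (1 / 4 : ℝ)
  refine h3.congr_fderiv ?_
  unfold Dm
  module

lemma Y_deriv {u : EuclideanSpace ℝ (Fin n)} (h1 : DifferentiableAt ℝ P u) (h2 : DifferentiableAt ℝ P (-u)) :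
    HasFDerivAt (Y P) (Dm P (1/2) (1/6) u) u := by
  have h3 := (h1.hasFDerivAt.const_smul (1 / 2 : ℝ)).sub
    ((hasFDerivAt_neg' h2).const_smul (1 / 6 : ℝ))
  refine h3.congr_fderiv ?_
  unfold Dm
  module

/-- `Y` is injective where its derivative is invertible -/
lemma Y_inj (h : IsProj K P) {u v : EuclideanSpace ℝ (Fin n)} (h1 : DifferentiableAt ℝ P u)
    (h2 : DifferentiableAt ℝ P (-u)) (hdet : (Dm P (1/2) (1/6) u).det ≠ 0)
    (he : Y P u = Y P v) : u = v := by
  have a1 := h.firm u v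
  have a2 := h.firm (-u) (-v)
  have a3 : ⟪Y P u - Y P v, u - v⟫ = 0 := by rw [he, sub_self, inner_zero_left]
  have a4 : ⟪Y P u - Y P v, u - v⟫ = (1/2) * ⟪P u - P v, u - v⟫ +
      (1/6) * ⟪P (-u) - P (-v), -u - -v⟫ := by
    have e1 : Y P u - Y P v = (1/2 : ℝ) • (P u - P v) - (1/6 : ℝ) • (P (-u) - P (-v)) := by
      unfold Y; module
    have e2 : -u - -v = -(u - v) := by abel
    rw [e1, e2, inner_sub_left, real_inner_smul_left, real_inner_smul_left, inner_neg_right]
    ring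
  have b1 := sq_nonneg ‖P u - P v‖
  have b2 := sq_nonneg ‖P (-u) - P (-v)‖
  have c1 : ‖P u - P v‖ ^ 2 = 0 := by linarith
  have c2 : ‖P (-u) - P (-v)‖ ^ 2 = 0 := by linarith
  have d1 : P u = P v := sub_eq_zero.1 (norm_eq_zero.1 (pow_eq_zero_iff two_ne_zero |>.1 c1))
  have d2 : P (-u) = P (-v) := sub_eq_zero.1 (norm_eq_zero.1 (pow_eq_zero_iff two_ne_zero |>.1 c2))
  -- `Y` is constant on the segment
  have e1 : ∀ t : ℝ, 0 ≤ t → t ≤ 1 → Y P (u + t • (v - u)) = Y P u := by
    intro t ht0 ht1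
    have f1 := h.fibre d1 ht0 ht1
    have f2 := h.fibre d2 ht0 ht1
    have f3 : -(u + t • (v - u)) = -u + t • (-v - -u) := by module
    unfold Y
    rw [f1, f3, f2]
  have hD := Y_deriv h1 h2
  have g1 : HasDerivAt (fun t : ℝ => Y P (u + t • (v - u))) (Dm P (1/2) (1/6) u (v - u)) 0 := by
    have h2 : HasDerivAt (fun t : ℝ => u + t • (v - u)) (v - u) 0 := by
      simpa using ((hasDerivAt_id (0:ℝ)).smul_const (v - u)).const_add u
    have h3 : HasFDerivAt (Y P) (Dm P (1/2) (1/6) u) (u + (0:ℝ) • (v - u)) := by simpa using hD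
    exact h3.comp_hasDerivAt 0 h2
  have g2 : HasDerivWithinAt (fun t : ℝ => Y P (u + t • (v - u))) 0 (Icc 0 1) 0 := by
    refine (hasDerivWithinAt_const (0:ℝ) (Icc (0:ℝ) 1) (Y P u)).congr ?_ ?_
    · intro t ht; exact e1 t ht.1 ht.2
    · exact e1 0 le_rfl zero_le_one
  have g3 : Dm P (1/2) (1/6) u (v - u) = 0 := by
    have := (uniqueDiffOn_Icc (zero_lt_one' ℝ) 0 (by simp)).eq_deriv _ g1.hasDerivWithinAt g2
    exact this
  by_contra hne
  apply hdet
  have hne' : v - u ≠ 0 := sub_ne_zero.2 (Ne.symm hne)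
  by_contra hd0
  have hinj : LinearMap.ker ((Dm P (1/2) (1/6) u : EuclideanSpace ℝ (Fin n) →L[ℝ] EuclideanSpace ℝ (Fin n)) : EuclideanSpace ℝ (Fin n) →ₗ[ℝ] EuclideanSpace ℝ (Fin n)) = ⊥ := by
    have hu' : IsUnit ((Dm P (1/2) (1/6) u : EuclideanSpace ℝ (Fin n) →L[ℝ] EuclideanSpace ℝ (Fin n)) : EuclideanSpace ℝ (Fin n) →ₗ[ℝ] EuclideanSpace ℝ (Fin n)) := by
      rw [LinearMap.isUnit_iff_isUnit_det]
      exact isUnit_iff_ne_zero.2 hd0
    exact (LinearMap.isUnit_iff_ker_eq_bot _).1 hu'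
  have : v - u ∈ LinearMap.ker ((Dm P (1/2) (1/6) u : EuclideanSpace ℝ (Fin n) →L[ℝ] EuclideanSpace ℝ (Fin n)) : EuclideanSpace ℝ (Fin n) →ₗ[ℝ] EuclideanSpace ℝ (Fin n)) := g3
  rw [hinj] at this
  exact hne' this

/-- the points where `P` is differentiable at `u` and `-u` -/
def Good (P : EuclideanSpace ℝ (Fin n) → EuclideanSpace ℝ (Fin n)) :
    Set (EuclideanSpace ℝ (Fin n)) :=
  {u | DifferentiableAt ℝ P u ∧ DifferentiableAt ℝ P (-u)}

lemma measurableSet_Good : MeasurableSet (Good P) :=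
  (measurableSet_of_differentiableAt ℝ P).inter
    ((measurableSet_of_differentiableAt ℝ P).preimage measurable_neg)

lemma good_compl (h : IsProj K P) : volume (Good P)ᶜ = 0 := by
  have h1 : ∀ᵐ u : EuclideanSpace ℝ (Fin n), DifferentiableAt ℝ P u :=
    h.lipschitz.ae_differentiableAt
  have h2 : ∀ᵐ u : EuclideanSpace ℝ (Fin n), DifferentiableAt ℝ P (-u) :=
    (Measure.measurePreserving_neg
      (volume : Measure (EuclideanSpace ℝ (Fin n)))).quasiMeasurePreserving.ae h1
  have h3 := h1.and h2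
  exact h3

theorem main_pos (h : IsProj K P) (hc : IsCompact K) {L : Set (EuclideanSpace ℝ (Fin n))}
    (hLm : MeasurableSet L) (hLs : ∀ x ∈ L, -x ∈ L) (hLK : L ⊆ K) (hv : Convex ℝ K)
    (hL4 : ∀ x ∈ L, (4 : ℝ) • x ∈ interior (K - K)) :
    ENNReal.ofReal ((2 / Real.sqrt 3) ^ n) * volume L ≤ volume K := by
  classical
  have hXc : Continuous (X P) := (X_lipschitz h).continuous
  set W : Set (EuclideanSpace ℝ (Fin n)) := X P ⁻¹' L ∩ Good P with hW
  have hWm : MeasurableSet W := (hXc.measurable hLm).inter measurableSet_Good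
  -- step 1
  have s1 : volume L ≤ ∫⁻ u in W, ENNReal.ofReal |(Dm P (1/4) (1/4) u).det| := by
    have hsub : L ⊆ X P '' W ∪ X P '' (Good P)ᶜ := by
      intro x hx
      obtain ⟨u, hu⟩ := surj hc h (hL4 x hx)
      have hXu : X P u = x := by
        unfold X; rw [hu, smul_smul]; norm_num
      by_cases hg : u ∈ Good P
      · exact Or.inl ⟨u, ⟨by rw [mem_preimage, hXu]; exact hx, hg⟩, hXu⟩
      · exact Or.inr ⟨u, hg, hXu⟩
    calc volume L ≤ volume (X P '' W ∪ X P '' (Good P)ᶜ) := measure_mono hsub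
      _ ≤ volume (X P '' W) + volume (X P '' (Good P)ᶜ) := measure_union_le _ _
      _ = volume (X P '' W) := by rw [null_image (X_lipschitz h) (good_compl h), add_zero]
      _ ≤ _ := addHaar_image_le_lintegral_abs_det_fderiv volume hWm
          fun u hu => (X_deriv hu.2.1 hu.2.2).hasFDerivWithinAt
  -- step 2
  set I : ℝ≥0∞ := ∫⁻ u in W, ENNReal.ofReal |(Dm P (1/2) (1/6) u).det| with hI
  have s2 : I ≤ volume K := by
    set Z : Set (EuclideanSpace ℝ (Fin n)) := {u | (Dm P (1/2) (1/6) u).det = 0} with hZ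
    have hZm : MeasurableSet Z := measurable_Dm (P := P) (1/2) (1/6) (measurableSet_singleton 0)
    have e1 : I = ∫⁻ u in W \ Z, ENNReal.ofReal |(Dm P (1/2) (1/6) u).det| := by
      rw [hI, ← lintegral_inter_add_sdiff _ W hZm]
      have : ∫⁻ u in W ∩ Z, ENNReal.ofReal |(Dm P (1/2) (1/6) u).det| = 0 := by
        rw [setLIntegral_congr_fun (g := fun _ => 0) (hWm.inter hZm) ?_, lintegral_zero]
        intro u hu
        have : (Dm P (1/2) (1/6) u).det = 0 := hu.2
        simp only [this, abs_zero, ENNReal.ofReal_zero]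
      rw [this, zero_add]
    have e2 := lintegral_abs_det_fderiv_eq_addHaar_image (f := Y P) volume (hWm.diff hZm)
      (fun u hu => (Y_deriv hu.1.2.1 hu.1.2.2).hasFDerivWithinAt)
      (fun u hu v _ he => Y_inj h hu.1.2.1 hu.1.2.2 hu.2 he)
    rw [e1, e2]
    refine measure_mono ?_
    rintro _ ⟨u, hu, rfl⟩
    rw [Y_eq]
    exact hv (hLK hu.1.1) (h.mem u) (by norm_num) (by norm_num) (by norm_num)
  -- step 3
  have hWs : Neg.neg ⁻¹' W = W := by
    ext u
    constructor
    · rintro ⟨h1, h2⟩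
      refine ⟨?_, ?_, h2.1⟩
      · have := hLs _ h1
        rw [X_neg, neg_neg] at this
        exact this
      · have := h2.2; rwa [neg_neg] at this
    · rintro ⟨h1, h2⟩
      refine ⟨?_, h2.2, ?_⟩
      · rw [mem_preimage, X_neg]; exact hLs _ h1
      · rw [neg_neg]; exact h2.1
  have s3 : I = ∫⁻ u in W, ENNReal.ofReal |(Dm P (1/6) (1/2) u).det| := by
    have hmeas : Measurable fun u => ENNReal.ofReal |(Dm P (1/2) (1/6) u).det| :=
      (measurable_Dm (P := P) (1/2) (1/6)).abs.ennreal_ofReal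
    have e1 := (Measure.measurePreserving_neg
      (volume : Measure (EuclideanSpace ℝ (Fin n)))).setLIntegral_comp_preimage hWm hmeas
    rw [hWs] at e1
    rw [hI, ← e1]
    refine lintegral_congr fun u => ?_
    have : Dm P (1/2) (1/6) (-u) = Dm P (1/6) (1/2) u := by
      unfold Dm; rw [neg_neg, add_comm]
    rw [this]
  -- step 4
  have s4 : ENNReal.ofReal (2 * (2 / Real.sqrt 3) ^ n) *
      (∫⁻ u in W, ENNReal.ofReal |(Dm P (1/4) (1/4) u).det|) ≤ 2 * volume K := by
    have e0 : 2 * volume K ≥ I + I := by rw [two_mul]; exact add_le_add s2 s2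
    refine le_trans ?_ e0
    nth_rewrite 2 [s3]
    rw [hI, ← lintegral_add_left (measurable_Dm (P := P) (1/2) (1/6)).abs.ennreal_ofReal,
      ← lintegral_const_mul _ (measurable_Dm (P := P) (1/4) (1/4)).abs.ennreal_ofReal]
    refine setLIntegral_mono' hWm fun u hu => ?_
    have hA := fderiv_isPositive h hu.2.1
    have hB := fderiv_isPositive h hu.2.2
    have p0 : ∀ a b : ℝ, 0 ≤ a → 0 ≤ b → 0 ≤ (Dm P a b u).det := by
      intro a b ha hb
      refine det_nonneg_op ?_
      have := (hA.smul_of_nonneg ha).add (hB.smul_of_nonneg hb)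
      exact this
    rw [abs_of_nonneg (p0 _ _ (by norm_num) (by norm_num)),
      abs_of_nonneg (p0 _ _ (by norm_num) (by norm_num)),
      abs_of_nonneg (p0 _ _ (by norm_num) (by norm_num)),
      ← ENNReal.ofReal_mul (by positivity),
      ← ENNReal.ofReal_add (p0 _ _ (by norm_num) (by norm_num))
        (p0 _ _ (by norm_num) (by norm_num))]
    refine ENNReal.ofReal_le_ofReal ?_
    have h5 := det_pair_op hA hB (a := 1/2) (b := 1/6) (by norm_num) (by norm_num)
    have e1 : (Dm P (1/4) (1/4) u).det = (1/4 : ℝ) ^ n * (fderiv ℝ P u + fderiv ℝ P (-u)).det := by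
      have : Dm P (1/4) (1/4) u = (1/4 : ℝ) • (fderiv ℝ P u + fderiv ℝ P (-u)) := by
        unfold Dm; rw [smul_add]
      rw [this]
      have e2 := LinearMap.det_smul (1/4 : ℝ) ((fderiv ℝ P u + fderiv ℝ P (-u) :
        EuclideanSpace ℝ (Fin n) →L[ℝ] EuclideanSpace ℝ (Fin n)) :
        EuclideanSpace ℝ (Fin n) →ₗ[ℝ] EuclideanSpace ℝ (Fin n))
      rw [finrank_euclideanSpace, Fintype.card_fin] at e2
      exact e2
    have e3 : (Dm P (1/6) (1/2) u).det = ((1/6 : ℝ) • fderiv ℝ P u + (1/2 : ℝ) • fderiv ℝ P (-u)).det := rfl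
    have e4 : (Dm P (1/2) (1/6) u).det = ((1/2 : ℝ) • fderiv ℝ P u + (1/6 : ℝ) • fderiv ℝ P (-u)).det := rfl
    rw [e1, e3, e4]
    have e5 : 2 * (2 / Real.sqrt 3) ^ n * ((1/4 : ℝ) ^ n * (fderiv ℝ P u + fderiv ℝ P (-u)).det) =
        2 * Real.sqrt (1/2 * (1/6)) ^ n * (fderiv ℝ P u + fderiv ℝ P (-u)).det := by
      have e6 : Real.sqrt (1/2 * (1/6)) = 2 / Real.sqrt 3 * (1/4) := by
        have h3 : (0:ℝ) < Real.sqrt 3 := by positivity
        rw [Real.sqrt_eq_iff_mul_self_eq (by norm_num) (by positivity)]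
        have h33 : Real.sqrt 3 * Real.sqrt 3 = 3 := Real.mul_self_sqrt (by norm_num)
        field_simp
        nlinarith
      rw [e6, mul_pow]
      ring
    rw [e5]
    exact h5
  -- conclusion
  have s5 : ENNReal.ofReal (2 * (2 / Real.sqrt 3) ^ n) * volume L ≤ 2 * volume K :=
    (mul_le_mul_right s1 _).trans s4
  have e1 : ENNReal.ofReal (2 * (2 / Real.sqrt 3) ^ n) =
      2 * ENNReal.ofReal ((2 / Real.sqrt 3) ^ n) := by
    rw [ENNReal.ofReal_mul (by norm_num)]; norm_num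
  rw [e1, mul_assoc] at s5
  exact (ENNReal.mul_le_mul_iff_right (by norm_num) (by norm_num)).1 s5

end main

end Pool.Agent.Helper78.NM
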