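import Mathlib

/-!
# The nearest point map of a compact convex set

`IsProj K P`: `P` is the nearest point map of the convex set `K` (variational inequality).
Firm nonexpansiveness, the potential `psi u = <P u, u> - |P u|^2 / 2`, surjectivity of
`u ↦ P u - P (-u)` onto the interior of `K - K`.
-/

set_option autoImplicit false

open MeasureTheory Filter Topology Set
open scoped RealInnerProductSpace Pointwise

namespace Pool.Agent.Helper78.NM

variable {E : Type*} [NormedAddCommGroup E] [InnerProductSpace ℝ E]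

/-- `P` is the nearest point map of `K` -/
structure IsProj (K : Set E) (P : E → E) : Prop where
  mem : ∀ u, P u ∈ K
  var : ∀ u, ∀ k ∈ K, ⟪u - P u, k - P u⟫ ≤ 0

theorem exists_isProj {K : Set E} (hc : IsCompact K) (hv : Convex ℝ K) (hne : K.Nonempty) :
    ∃ P : E → E, IsProj K P := by
  have h : ∀ u : E, ∃ v ∈ K, ‖u - v‖ = ⨅ w : K, ‖u - w‖ :=
    exists_norm_eq_iInf_of_complete_convex hne hc.isComplete hv
  choose P hP1 hP2 using h
  exact ⟨P, hP1, fun u k hk => (norm_eq_iInf_iff_real_inner_le_zero hv (hP1 u)).1 (hP2 u) k hk⟩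

variable {K : Set E} {P : E → E}

namespace IsProj

lemma firm (h : IsProj K P) (u v : E) : ‖P u - P v‖ ^ 2 ≤ ⟪P u - P v, u - v⟫ := by
  have h1 := h.var u (P v) (h.mem v)
  have h2 := h.var v (P u) (h.mem u)
  have e1 : ‖P u - P v‖ ^ 2 = ⟪P u - P v, P u - P v⟫ := (real_inner_self_eq_norm_sq _).symm
  rw [e1]
  have e2 : ⟪P u - P v, u - v⟫ - ⟪P u - P v, P u - P v⟫ =
      -(⟪u - P u, P v - P u⟫ + ⟪v - P v, P u - P v⟫) := by
    rw [real_inner_comm (u - v)]
    have : u - v = (u - P u) + (P u - P v) - (v - P v) := by abel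
    rw [this, inner_sub_left, inner_add_left]
    have e3 : ⟪u - P u, P u - P v⟫ = -⟪u - P u, P v - P u⟫ := by
      rw [← inner_neg_right]; congr 1; abel
    rw [e3]; ring
  linarith

lemma lip (h : IsProj K P) (u v : E) : ‖P u - P v‖ ≤ ‖u - v‖ := by
  have h1 := h.firm u v
  have h2 : ⟪P u - P v, u - v⟫ ≤ ‖P u - P v‖ * ‖u - v‖ := real_inner_le_norm _ _
  rcases eq_or_lt_of_le (norm_nonneg (P u - P v)) with h0 | h0
  · rw [← h0]; exact norm_nonneg _
  · have h3 : ‖P u - P v‖ * ‖P u - P v‖ ≤ ‖P u - P v‖ * ‖u - v‖ := by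
      rw [← sq]; linarith
    exact le_of_mul_le_mul_left h3 h0

lemma lipschitz (h : IsProj K P) : LipschitzWith 1 P :=
  LipschitzWith.of_dist_le_mul fun u v => by
    rw [dist_eq_norm, dist_eq_norm, NNReal.coe_one, one_mul]
    exact h.lip u v

lemma continuous (h : IsProj K P) : Continuous P := h.lipschitz.continuous

/-- the fibres of `P` are convex -/
lemma fibre (h : IsProj K P) {u v : E} (huv : P u = P v) {t : ℝ} (h0 : 0 ≤ t) (h1 : t ≤ 1) :
    P (u + t • (v - u)) = P u := by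
  set w := u + t • (v - u) with hw
  have k1 : ∀ k ∈ K, ⟪w - P u, k - P u⟫ ≤ 0 := by
    intro k hk
    have a1 := h.var u k hk
    have a2 := h.var v k hk
    rw [← huv] at a2
    have : w - P u = (1 - t) • (u - P u) + t • (v - P u) := by
      rw [hw]; module
    rw [this, inner_add_left, real_inner_smul_left, real_inner_smul_left]
    have b1 : (1 - t) * ⟪u - P u, k - P u⟫ ≤ 0 := mul_nonpos_of_nonneg_of_nonpos (by linarith) a1
    have b2 : t * ⟪v - P u, k - P u⟫ ≤ 0 := mul_nonpos_of_nonneg_of_nonpos h0 a2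
    linarith
  have k2 := k1 (P w) (h.mem w)
  have k3 := h.var w (P u) (h.mem u)
  have k4 : ⟪w - P u, P w - P u⟫ + ⟪w - P w, P u - P w⟫ = ‖P w - P u‖ ^ 2 := by
    rw [← real_inner_self_eq_norm_sq]
    have e1 : ⟪w - P w, P u - P w⟫ = -⟪w - P w, P w - P u⟫ := by
      rw [← inner_neg_right]; congr 1; abel
    rw [e1, ← sub_eq_add_neg, ← inner_sub_left]
    congr 1; abel
  have k5 : ‖P w - P u‖ ^ 2 ≤ 0 := by linarith
  have k6 : ‖P w - P u‖ = 0 := by
    have := sq_nonneg ‖P w - P u‖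
    exact pow_eq_zero_iff (two_ne_zero) |>.1 (le_antisymm k5 this)
  exact sub_eq_zero.1 (norm_eq_zero.1 k6)

end IsProj

/-- the potential of the nearest point map -/
noncomputable def psi (P : E → E) (u : E) : ℝ := ⟪P u, u⟫ - ‖P u‖ ^ 2 / 2

lemma psi_ge (h : IsProj K P) (u : E) {k : E} (hk : k ∈ K) : ⟪k, u⟫ - ‖k‖ ^ 2 / 2 ≤ psi P u := by
  unfold psi
  have h1 := h.var u k hk
  have e1 : ‖k‖ ^ 2 = ‖P u‖ ^ 2 + 2 * ⟪P u, k - P u⟫ + ‖k - P u‖ ^ 2 := by
    rw [← norm_add_sq_real]; congr 2; abel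
  rw [inner_sub_left] at h1
  have e2 : ⟪u, k - P u⟫ = ⟪k, u⟫ - ⟪P u, u⟫ := by
    rw [inner_sub_right, real_inner_comm u k, real_inner_comm u (P u)]
  rw [e2] at h1
  have := sq_nonneg ‖k - P u‖
  linarith

lemma psi_sub_ge (h : IsProj K P) (u v : E) : ⟪P u, v - u⟫ ≤ psi P v - psi P u := by
  have h1 := psi_ge h v (h.mem u)
  have e : ⟪P u, v - u⟫ = ⟪P u, v⟫ - ⟪P u, u⟫ := inner_sub_right _ _ _
  rw [e]
  unfold psi at h1 ⊢
  linarith

lemma psi_sub_le (h : IsProj K P) (u v : E) : psi P v - psi P u ≤ ⟪P v, v - u⟫ := by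
  have h1 := psi_sub_ge h v u
  have e : ⟪P v, u - v⟫ = -⟪P v, v - u⟫ := by rw [← inner_neg_right]; congr 1; abel
  rw [e] at h1
  linarith

lemma psi_hasFDerivAt (h : IsProj K P) (u : E) : HasFDerivAt (psi P) (innerSL ℝ (P u)) u := by
  rw [hasFDerivAt_iff_isLittleO_nhds_zero]
  have h1 : (fun x : E => psi P (u + x) - psi P u - (innerSL ℝ (P u)) x) =O[𝓝 0]
      fun x => ‖x‖ ^ 2 := by
    refine Asymptotics.IsBigO.of_bound 1 (Eventually.of_forall fun x => ?_)
    rw [innerSL_apply_apply, one_mul, Real.norm_eq_abs, Real.norm_eq_abs,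
      abs_of_nonneg (sq_nonneg ‖x‖)]
    have a1 := psi_sub_ge h u (u + x)
    have a2 := psi_sub_le h u (u + x)
    rw [add_sub_cancel_left] at a1 a2
    rw [abs_of_nonneg (by linarith)]
    have a3 : ⟪P (u + x), x⟫ - ⟪P u, x⟫ ≤ ‖x‖ ^ 2 := by
      rw [← inner_sub_left]
      refine (real_inner_le_norm _ _).trans ?_
      have := h.lip (u + x) u
      rw [add_sub_cancel_left] at this
      rw [sq]
      exact mul_le_mul_of_nonneg_right this (norm_nonneg _)
    linarith
  refine h1.trans_isLittleO ?_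
  have h2 : (fun x : E => ‖x‖ ^ 2) =o[𝓝 0] fun x : E => ‖x‖ ^ 1 := by
    have := Asymptotics.isLittleO_norm_pow_norm_pow (E' := E) (m := 1) (n := 2) (by norm_num)
    exact this
  simp only [pow_one] at h2
  exact h2.of_norm_right

/-- `u ↦ P u - P (-u)` is onto the interior of `K - K` -/
theorem surj [FiniteDimensional ℝ E] (hc : IsCompact K) (h : IsProj K P) {x : E}
    (hx : x ∈ interior (K - K)) : ∃ u, P u - P (-u) = x := by
  -- the function to be minimised
  set G : E → ℝ := fun u => psi P u + psi P (-u) - ⟪x, u⟫ with hG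
  have hGd : ∀ u, HasFDerivAt G (innerSL ℝ (P u - P (-u) - x)) u := by
    intro u
    have h1 := psi_hasFDerivAt h u
    have h2 : HasFDerivAt (fun v : E => psi P (-v)) (-(innerSL ℝ (P (-u)))) u := by
      have h3 := (psi_hasFDerivAt h (-u)).comp u (hasFDerivAt_id u).neg
      refine h3.congr_fderiv ?_
      ext y; simp
    have h4 : HasFDerivAt (fun v : E => ⟪x, v⟫) (innerSL ℝ x) u := (innerSL ℝ x).hasFDerivAt
    have h5 := (h1.add h2).sub h4
    refine h5.congr_fderiv ?_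
    ext y
    simp [sub_eq_add_neg]
  have hGc : Continuous G := continuous_iff_continuousAt.2 fun u => (hGd u).continuousAt
  -- coercivity
  obtain ⟨R, hR⟩ := hc.isBounded.exists_norm_le
  obtain ⟨δ, hδ, hball⟩ := Metric.isOpen_iff.1 isOpen_interior x hx
  have hco : ∀ u, δ / 2 * ‖u‖ - R ^ 2 ≤ G u := by
    intro u
    have hmem : x + (δ / 2 * ‖u‖⁻¹) • u ∈ K - K := by
      apply interior_subset
      apply hball
      rw [Metric.mem_ball, dist_eq_norm, add_sub_cancel_left, norm_smul, Real.norm_eq_abs,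
        abs_of_nonneg (by positivity)]
      rcases eq_or_ne ‖u‖ 0 with h0 | h0
      · rw [h0]; simpa using hδ
      · rw [mul_assoc, inv_mul_cancel₀ h0, mul_one]; linarith
    obtain ⟨k1, hk1, k2, hk2, he⟩ := hmem
    have a1 := psi_ge h u hk1
    have a2 := psi_ge h (-u) hk2
    rw [inner_neg_right] at a2
    have a3 : ⟪k1, u⟫ - ⟪k2, u⟫ = ⟪x, u⟫ + δ / 2 * ‖u‖ := by
      rw [← inner_sub_left]
      have he' : k1 - k2 = x + (δ / 2 * ‖u‖⁻¹) • u := he
      rw [he', inner_add_left, real_inner_smul_left, real_inner_self_eq_norm_sq]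
      rcases eq_or_ne ‖u‖ 0 with h0 | h0
      · rw [h0]; simp
      · field_simp
    have b1 : ‖k1‖ ^ 2 ≤ R ^ 2 := pow_le_pow_left₀ (norm_nonneg _) (hR _ hk1) 2
    have b2 : ‖k2‖ ^ 2 ≤ R ^ 2 := pow_le_pow_left₀ (norm_nonneg _) (hR _ hk2) 2
    show δ / 2 * ‖u‖ - R ^ 2 ≤ psi P u + psi P (-u) - ⟪x, u⟫
    linarith
  have hlim : Tendsto G (cocompact E) atTop := by
    refine tendsto_atTop_mono hco ?_
    refine tendsto_atTop_add_const_right _ _ ?_
    exact (tendsto_norm_cocompact_atTop (E := E)).const_mul_atTop (by positivity)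
  obtain ⟨u, hu⟩ := hGc.exists_forall_le hlim
  have hmin : IsLocalMin G u := Eventually.of_forall hu
  have h0 := hmin.hasFDerivAt_eq_zero (hGd u)
  have h1 : innerSL ℝ (P u - P (-u) - x) (P u - P (-u) - x) = 0 := by rw [h0]; rfl
  rw [innerSL_apply_apply, inner_self_eq_zero] at h1
  exact ⟨u, sub_eq_zero.1 h1⟩

end Pool.Agent.Helper78.NM
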