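import Pool.Agent.Helper78.NM.Main
import Pool.Agent.W679.AM.Cor

/-!
# The volume inequality, closed form, and the volume product
-/

set_option autoImplicit false

open MeasureTheory Filter Topology Set
open scoped RealInnerProductSpace Pointwise ENNReal

namespace Pool.Agent.Helper78.NM

variable {n : ℕ} {K : Set (EuclideanSpace ℝ (Fin n))}

theorem main_ineq (hc : IsCompact K) (hv : Convex ℝ K) {L : Set (EuclideanSpace ℝ (Fin n))}
    (hLm : MeasurableSet L) (hLs : ∀ x ∈ L, -x ∈ L) (hLK : L ⊆ K)
    (hL4 : ∀ x ∈ L, (4 : ℝ) • x ∈ K - K) :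
    ENNReal.ofReal ((2 / Real.sqrt 3) ^ n) * volume L ≤ volume K := by
  rcases K.eq_empty_or_nonempty with h0 | hne
  · have : L = ∅ := by rw [h0] at hLK; exact subset_empty_iff.1 hLK
    rw [this, measure_empty, mul_zero]; exact bot_le
  obtain ⟨P, hP⟩ := exists_isProj hc hv hne
  have hKK : Convex ℝ (K - K) := hv.sub hv
  set S : Set (EuclideanSpace ℝ (Fin n)) := (fun x => (4 : ℝ) • x) ⁻¹' interior (K - K) with hS
  set T : Set (EuclideanSpace ℝ (Fin n)) := (fun x => (4 : ℝ) • x) ⁻¹' frontier (K - K) with hT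
  have hSm : MeasurableSet S := isOpen_interior.measurableSet.preimage (measurable_const_smul _)
  have hT0 : volume T = 0 := by
    rw [hT, Measure.addHaar_preimage_smul _ (by norm_num : (4:ℝ) ≠ 0), hKK.addHaar_frontier volume,
      mul_zero]
  have hsub : L ⊆ (L ∩ S) ∪ T := by
    intro x hx
    by_cases h : (4 : ℝ) • x ∈ interior (K - K)
    · exact Or.inl ⟨hx, h⟩
    · exact Or.inr ⟨subset_closure (hL4 x hx), h⟩
  have hvol : volume L ≤ volume (L ∩ S) := by
    refine (measure_mono hsub).trans ((measure_union_le _ _).trans ?_)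
    rw [hT0, add_zero]
  have h1 := main_pos hP hc (L := L ∩ S) (hLm.inter hSm) ?_ (inter_subset_left.trans hLK) hv
    (fun x hx => hx.2)
  · exact (mul_le_mul_right hvol _).trans h1
  · rintro x ⟨hx1, hx2⟩
    refine ⟨hLs x hx1, ?_⟩
    have e : K - K = -(K - K) := by rw [neg_sub]
    show (4:ℝ) • (-x) ∈ interior (K - K)
    rw [smul_neg]
    have h3 : (4:ℝ) • x ∈ interior (-(K - K)) := by rw [← e]; exact hx2
    rw [← Set.mem_neg]
    have h4 : interior (-(K - K)) = -interior (K - K) := by
      have := (Homeomorph.neg (EuclideanSpace ℝ (Fin n))).preimage_interior (K - K)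
      exact this.symm
    rwa [h4] at h3

end Pool.Agent.Helper78.NM
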