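import Pool.Agent.Helper78.NM.Vol

/-!
# The volume product of a convex body is at least `(4/√3)^n / n!`
-/

set_option autoImplicit false

open MeasureTheory Filter Topology Set
open scoped RealInnerProductSpace Pointwise ENNReal

namespace Pool.Agent.Helper78.NM

variable {n : ℕ} {K : Set (EuclideanSpace ℝ (Fin n))}

lemma prz_symm {z x : EuclideanSpace ℝ (Fin n)} (hx : x ∈ W679AM.prz K z) :
    -x ∈ W679AM.prz K z := by
  intro u
  have := hx u
  rwa [inner_neg_left, abs_neg]

lemma prz_sub (hc : IsCompact K) (hv : Convex ℝ K) {z : EuclideanSpace ℝ (Fin n)}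
    (h0 : z ∈ interior K) {x : EuclideanSpace ℝ (Fin n)} (hx : x ∈ W679AM.prz K z) :
    x + z ∈ K := by
  obtain ⟨y, hy, hxy⟩ := W679AM.prz_theta hc hv h0 0 hx
  obtain ⟨a, ha, b, hb, rfl⟩ := Set.mem_add.1 hy
  obtain ⟨a', ha', rfl⟩ := Set.mem_smul_set.1 ha
  obtain ⟨b', hb', rfl⟩ := Set.mem_smul_set.1 hb
  have : x + z = a' := by
    rw [← hxy]
    simp
  rwa [this]

lemma prz_four (hc : IsCompact K) (hv : Convex ℝ K) {z : EuclideanSpace ℝ (Fin n)}
    (h0 : z ∈ interior K) {x : EuclideanSpace ℝ (Fin n)} (hx : x ∈ W679AM.prz K z) :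
    (4 : ℝ) • x ∈ K - K := by
  obtain ⟨y, hy, hxy⟩ := W679AM.prz_theta hc hv h0 (1 / 2) hx
  obtain ⟨a, ha, b, hb, rfl⟩ := Set.mem_add.1 hy
  obtain ⟨a', ha', rfl⟩ := Set.mem_smul_set.1 ha
  obtain ⟨b', hb', rfl⟩ := Set.mem_smul_set.1 hb
  have e : (4 : ℝ) • x = a' - (-b') := by
    rw [← hxy]
    norm_num
    rw [smul_smul, smul_smul]
    norm_num
  rw [e]
  exact Set.sub_mem_sub ha' (by simpa using hb')

/-- the volume of the harmonic body -/
theorem prz_volume_le (hc : IsCompact K) (hv : Convex ℝ K) {z : EuclideanSpace ℝ (Fin n)}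
    (h0 : z ∈ interior K) :
    ENNReal.ofReal ((2 / Real.sqrt 3) ^ n) * volume (W679AM.prz K z) ≤ volume K := by
  have h1 := main_ineq (K := (fun x => x + z) ⁻¹' K) (L := W679AM.prz K z)
    ((Homeomorph.addRight z).isCompact_preimage.2 hc)
    (hv.translate_preimage_left z)
    (W679AM.prz_closed K z).measurableSet (fun x hx => prz_symm hx)
    (fun x hx => prz_sub hc hv h0 hx) (fun x hx => ?_)
  · rwa [measure_preimage_add_right] at h1
  · obtain ⟨a, ha, b, hb, hab⟩ := Set.mem_sub.1 (prz_four hc hv h0 hx)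
    rw [← hab]
    refine Set.mem_sub.2 ⟨a - z, ?_, b - z, ?_, by abel⟩
    · show a - z + z ∈ K
      simpa using ha
    · show b - z + z ∈ K
      simpa using hb

/-- the volume product with an arbitrary centre -/
theorem vp_centre (hc : IsCompact K) (hv : Convex ℝ K) {z : EuclideanSpace ℝ (Fin n)}
    (h0 : z ∈ interior K) :
    ENNReal.ofReal ((4 / Real.sqrt 3) ^ n / n.factorial) ≤
      volume K * volume (W679AM.plz K z) := by
  have h1 := prz_volume_le hc hv h0
  have h2 := W679AM.asym_ennreal hc hv h0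
  calc ENNReal.ofReal ((4 / Real.sqrt 3) ^ n / n.factorial)
      = ENNReal.ofReal ((2 / Real.sqrt 3) ^ n) * ENNReal.ofReal ((2 : ℝ) ^ n / n.factorial) := by
        rw [← ENNReal.ofReal_mul (by positivity)]
        congr 1
        rw [show (4 : ℝ) / Real.sqrt 3 = 2 / Real.sqrt 3 * 2 by ring, mul_pow]
        ring
    _ ≤ ENNReal.ofReal ((2 / Real.sqrt 3) ^ n) *
        (volume (W679AM.prz K z) * volume (W679AM.plz K z)) := mul_le_mul_right h2 _
    _ = (ENNReal.ofReal ((2 / Real.sqrt 3) ^ n) * volume (W679AM.prz K z)) *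
        volume (W679AM.plz K z) := by rw [mul_assoc]
    _ ≤ volume K * volume (W679AM.plz K z) := mul_le_mul_left h1 _

/-- **the volume product of a convex body with the origin in its interior** -/
theorem vp (hK : IsCompact K) (hc : Convex ℝ K) (h0 : (0 : EuclideanSpace ℝ (Fin n)) ∈ interior K) :
    ENNReal.ofReal ((4 / Real.sqrt 3) ^ n / n.factorial) ≤
      volume K * volume {y : EuclideanSpace ℝ (Fin n) | ∀ x ∈ K, inner ℝ x y ≤ 1} := by
  have h1 := vp_centre hK hc h0
  have e : W679AM.plz K 0 = {y : EuclideanSpace ℝ (Fin n) | ∀ x ∈ K, inner ℝ x y ≤ 1} := by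
    ext y
    simp [W679AM.plz]
  rwa [e] at h1

end Pool.Agent.Helper78.NM

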